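import Pool.Agent.J4.H70.FM5.GapI

/-!
# MP_f5d5f4_nt: elliptic curves with integral invariants

Only `2 X + 1` of the about `X ^ 2` rational numbers of height at most `X` are integers, so theorems on
almost all rational invariants say nothing about integral ones.

**Theorem.** Let `P ≥ 13`, `0 ≤ ζ ≤ κ` and `(κ - 1) / 2 + ζ / P < 1`. There are `δ > 0` and `C` such that
all but at most `C X ^ (1 - δ)` of the integers `n` with `|n| ≤ X` have the following property. Let `K` be
a number field of degree at most `D` and prime to `6` (for instance `ℚ`), `E` an elliptic curve over `K`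
with `j(E) = n`, and `E'` an elliptic curve over `K` whose invariant is a rational number of height at
most `X ^ κ` and denominator at most `X ^ ζ`. If `E` and `E'` are `p`-congruent over `K` for some prime
`p ≥ P` larger than `[K : ℚ]`, then `j(E') = n`, so `E'` is a twist of `E`.

* With `ζ = 0`: for 100 percent of the integers `n`, no congruence modulo any `p ≥ 13` with a curve with
  another integral invariant of absolute value at most `|n| ^ κ`, for every `κ < 3`.
* With `ζ = κ`: no congruence modulo any `p ≥ P` with a curve with another rational invariant of height at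
  most `|n| ^ κ`, for every `κ < 3 P / (P + 2)` (`κ = 2.59` for `P = 13`, `κ = 2.71` for `P = 19`).

Proof. Let `j(E) = n`, `j(E') = a' / b' ≠ n` with `|a'| ≤ X ^ κ`, `c = n - 1728`, `c' = a' - 1728 b'`. By
the local analysis of the libraries `JD` and `HG` (potentially good reduction with inertia of order
divisible by `3` or `4`, also at `p` unless `p` is at most a constant times `log X`), `a' = A a₂`,
`c' = C c₂`, where `A` is the product of the primes `q ≥ 5` at which `n` has an order prime to `3` and `C`
is the same for `c` and odd orders; `c₂ = s w²`, `b' = s' z ^ p`, where `s`, `s'` are composed of few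
given primes. Write `n = A a₁`, `c = C c₁`. From `A a₁ = C c₁ + 1728` and `A a₂ = C c₂ + 1728 b'` one gets
`C (c₁ b' - c₂) = A (a₁ b' - a₂)`; since `A` and `C` are coprime, **`A` divides `c₁ b' - c₂ ≠ 0`**. By a sieve, `A C ≥ X ^ (2 - ε)` for all but `X ^ (1 - δ)` integers `n`;
then `a₁`, `c₁` are at most `X ^ ε`, there are `X ^ ((κ - 1) / 2 + ε)` values of `c₂` and
`X ^ (ζ / p + ε)` values of `b'`, they determine `A` up to `X ^ ε` choices, and `A`, `a₁` determine `n`.
-/

set_option autoImplicit false

open WeierstrassCurve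

namespace Pool.Agent.Results.MP_f5d5f4_nt.IntegralInvariants

section
variable {K : Type} [Field K]

/-- The curve `y² = x³ + Ax + B` over the field `K`. -/
def curve (A B : K) : WeierstrassCurve K := ⟨0, 0, 0, A, B⟩

/-- Its `j`-invariant. -/
noncomputable def invariant (A B : K) : K := 1728 * (4 * A ^ 3) / (4 * A ^ 3 + 27 * B ^ 2)

open scoped Classical in
/-- The group of its points over the algebraic closure of `K`. -/
abbrev Points (A B : K) : Type := ((curve A B).baseChange (AlgebraicClosure K)).toAffine.Point

open scoped Classical in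
/-- The action of an automorphism `σ` of the algebraic closure on the points. -/
noncomputable def galois (A B : K) (σ : AlgebraicClosure K ≃ₐ[K] AlgebraicClosure K) :
    Points A B →+ Points A B :=
  WeierstrassCurve.Affine.Point.map (σ : AlgebraicClosure K →ₐ[K] AlgebraicClosure K)

open scoped Classical in
/-- The curves `y² = x³ + Ax + B` and `y² = x³ + A'x + B'` are `p`-congruent over `K`: some map between
the groups of points restricts to a bijective additive map between the groups of points killed by `p`
which commutes with the Galois group. -/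
def Congruent (p : ℕ) (A B A' B' : K) : Prop :=
  ∃ f : Points A B → Points A' B', (∀ P Q, p • P = 0 → p • Q = 0 → f (P + Q) = f P + f Q) ∧
    Set.BijOn f {P | p • P = 0} {Q | p • Q = 0} ∧
    ∀ (σ : AlgebraicClosure K ≃ₐ[K] AlgebraicClosure K) (P : Points A B), p • P = 0 →
      f (galois A B σ P) = galois A' B' σ (f P)

end

/-- The height of `j = a / b`, in lowest terms: the maximum of `|a|` and `b`. -/
def height (j : ℚ) : ℕ := max j.num.natAbs j.den

/-- The curves with invariant `n`, over number fields `K` of degree at most `D` and prime to `6`, are not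
congruent modulo a prime `p ≥ P` larger than `[K : ℚ]` to any curve with a rational invariant
`j' ≠ n` of height at most `y` and denominator at most `w`. -/
def NoCongruence (D P : ℕ) (y w : ℝ) (n : ℤ) : Prop :=
  ∀ (K : Type) [Field K] [NumberField K] (p : ℕ) (A B A' B' : K) (j' : ℚ),
    Module.finrank ℚ K ≤ D → (Module.finrank ℚ K).Coprime 6 →
    p.Prime → P ≤ p → Module.finrank ℚ K < p →
    4 * A ^ 3 + 27 * B ^ 2 ≠ 0 → 4 * A' ^ 3 + 27 * B' ^ 2 ≠ 0 →
    invariant A B = (n : K) → invariant A' B' = (j' : K) →
    (height j' : ℝ) ≤ y → (j'.den : ℝ) ≤ w → j' ≠ n → ¬ Congruent p A B A' B'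

/-- **Integral invariants.** If `P ≥ 13`, `0 ≤ ζ ≤ κ` and `(κ - 1) / 2 + ζ / P < 1` (for instance
`ζ = 0` and `κ < 3`, or `ζ = κ = 2.71` and `P = 19`), then for all but `C X ^ (1 - δ)` integers `n` with
`|n| ≤ X` the elliptic curves with invariant `n` have no `p`-congruence, `p ≥ P`, with curves whose
invariant is a rational number different from `n` of height at most `X ^ κ` and denominator at most
`X ^ ζ`. -/
theorem result (D P : ℕ) (κ ζ : ℝ) (hP : 13 ≤ P) (hζ : 0 ≤ ζ) (hζκ : ζ ≤ κ)
    (hκ : (κ - 1) / 2 + ζ / (P : ℝ) < 1) :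
    ∃ δ : ℝ, 0 < δ ∧ ∃ C : ℝ, ∀ X : ℕ, 1 ≤ X →
      (({n : ℤ | n.natAbs ≤ X ∧
        ¬ NoCongruence D P ((X : ℝ) ^ κ) ((X : ℝ) ^ ζ) n}.ncard : ℕ) : ℝ) ≤
        C * (X : ℝ) ^ (1 - δ) := by
  have hinv : ∀ {K : Type} [Field K] (A B : K), Pool.Agent.Y673.Loc.jv A B = invariant A B := by
    intro K _ A B
    unfold Pool.Agent.Y673.Loc.jv invariant
    ring
  have hP0 : (0 : ℝ) < P := by exact_mod_cast (by omega : 0 < P)
  have hκ1 : (max κ 1 - 1) / 2 + ζ / (P : ℝ) < 1 := by
    rcases le_total κ 1 with h | h
    · rw [max_eq_right h]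
      have h1 : ζ / (P : ℝ) < 1 := by
        rw [div_lt_one hP0]
        have : (13 : ℝ) ≤ P := by exact_mod_cast hP
        linarith
      linarith
    · rw [max_eq_left h]
      exact hκ
  obtain ⟨δ, hδ, C, h⟩ := Pool.Agent.J4.H70.FM5.gapI D P hP (le_max_right κ 1) hζ
    (hζκ.trans (le_max_left κ 1)) hκ1
  refine ⟨δ, hδ, C, fun X hX => le_trans ?_ (h X hX)⟩
  have hX1 : (1 : ℝ) ≤ X := by exact_mod_cast hX
  refine Nat.cast_le.2 (Set.ncard_le_ncard ?_
    ((Pool.Agent.J4.H70.FM5.int_finite X).subset fun j hj => hj.1))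
  rintro n ⟨hn, hF⟩
  refine ⟨hn, fun hFM => hF ?_⟩
  intro K _ _ p A B A' B' j' hD h6 hp hPp hn hd hd' hjj hjj' hH hW hne ⟨f, h1, h2, h3⟩
  refine hne (hFM K _ _ p A B A' B' j' hD h6 hPp
    ⟨hd, hd', by rw [hinv, hjj, Rat.cast_intCast], by rw [hinv, hjj'], hp, hP.trans hPp, hn,
      ⟨f, h1, h2, h3⟩⟩
    (le_trans hH (Real.rpow_le_rpow_of_exponent_le hX1 (le_max_left κ 1))) hW).symm

end Pool.Agent.Results.MP_f5d5f4_nt.IntegralInvariants
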