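import Pool.Agent.J4.H70.FM5.PrF

/-!
# MP_f5d5f4_nt: congruent pairs with an integral invariant are rare

**Theorem.** Let `P ≥ 13`, `D ≥ 1` and `ε > 0`. There is `C` such that for `1 ≤ X ≤ Y` and `W ≥ 1` there
are at most

`C (X Y) ^ (3 / 8 + ε) W ^ (1 / P)`

pairs `(n, j')` of an integer `n ≠ 0, 1728` with `|n| ≤ X` and a rational number `j' ≠ n` of height at most
`Y` and denominator at most `W` for which some elliptic curves `E`, `E'` over some number field `K` of
degree at most `D` and prime to `6`, with `j(E) = n`, `j(E') = j'`, are `p`-congruent over `K` for some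
prime `p ≥ P` larger than `[K : ℚ]`.

* `X = Y`, `W = 1`: there are at most `C X ^ (3 / 4 + ε)` pairs of distinct integers of absolute value at
  most `X`, the first of them not `0` or `1728`, which are the invariants of congruent curves, for all
  `p ≥ 13` together (out of about `4 X ^ 2` pairs); in particular all but `C X ^ (3 / 4 + ε)` integers up
  to `X` have no such partner up to `X`.
* `X = Y = W`: at most `C X ^ (3 / 4 + 1 / P + ε)` pairs of an integer up to `X` and a rational number of
  height at most `X` (out of `c X ^ 3`), less than `X` pairs; the exponent is `0.803` for `P = 19`.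
* The bound is smaller than `X` if `Y ≤ X ^ κ`, `W = 1`, `κ < 5 / 3`.

There is no exceptional set: all pairs are counted.

Proof. Let `a = n`, `c = n - 1728`, `a' / b' = j'`, `c' = a' - 1728 b'`, let `A` be the product of the
primes `q ≥ 5` at which `n` has an order prime to `3` and `C` the product of the primes `q ≥ 5` at which
`c` has odd order (without an exceptional prime). By the local analysis of the libraries `JD` and `HG`,
`a = A a₁`, `a' = A a₂`, `c = C c₁`, `c' = C c₂` with `a_i = s α u³`, `α ∣ A`, and `c_i = s w²`, `b' = s z ^ p`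
with few `s`. From `A a₁ = C c₁ + 1728`, `A a₂ = C c₂ + 1728 b'` one gets `A ∣ c₁ b' - c₂ ≠ 0`. Up to
factors `X ^ ε` and the number of the `b'` there are therefore at most

* `A (X / A) ^ (1 / 3) (Y / A) ^ (1 / 3)` pairs (choose `A`, `a₁`, `a₂`),
* `C (X / C) ^ (1 / 2) ((Y / C) ^ (1 / 2) / A + 1)` pairs (choose `C`, `c₁`, so `n`, `A`; then `c₂` is in a
  given residue class modulo the squarefree number `A`),
* `(X / C) ^ (1 / 2) (Y / C) ^ (1 / 2) (X / A) ^ (1 / 3)` pairs (choose `c₁`, `c₂`; then `A` is a divisor of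
  `c₁ b' - c₂`; choose `a₁`),

and the smallest of these is at most `(X Y) ^ (3 / 8)` whatever `A` and `C` are. The pairs with
`j' = 0` or `1728` are counted directly.
-/

set_option autoImplicit false

open WeierstrassCurve

namespace Pool.Agent.Results.MP_f5d5f4_nt.IntegralPairs

section
variable {K : Type} [Field K]

/-- The curve `y² = x³ + Ax + B` over the field `K`. -/
def curve (A B : K) : WeierstrassCurve K := ⟨0, 0, 0, A, B⟩

/-- Its `j`-invariant. -/
noncomputable def invariant (A B : K) : K := 1728 * (4 * A ^ 3) / (4 * A ^ 3 + 27 * B ^ 2)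

open scoped Classical in
/-- The group of its points over the algebraic closure of `K`. -/
abbrev Points (A B : K) : Type := ((curve A B).baseChange (AlgebraicClosure K)).toAffine.Point

open scoped Classical in
/-- The action of an automorphism `σ` of the algebraic closure on the points. -/
noncomputable def galois (A B : K) (σ : AlgebraicClosure K ≃ₐ[K] AlgebraicClosure K) :
    Points A B →+ Points A B :=
  WeierstrassCurve.Affine.Point.map (σ : AlgebraicClosure K →ₐ[K] AlgebraicClosure K)

open scoped Classical in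
/-- The curves `y² = x³ + Ax + B` and `y² = x³ + A'x + B'` are `p`-congruent over `K`: some map between
the groups of points restricts to a bijective additive map between the groups of points killed by `p`
which commutes with the Galois group. -/
def Congruent (p : ℕ) (A B A' B' : K) : Prop :=
  ∃ f : Points A B → Points A' B', (∀ P Q, p • P = 0 → p • Q = 0 → f (P + Q) = f P + f Q) ∧
    Set.BijOn f {P | p • P = 0} {Q | p • Q = 0} ∧
    ∀ (σ : AlgebraicClosure K ≃ₐ[K] AlgebraicClosure K) (P : Points A B), p • P = 0 →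
      f (galois A B σ P) = galois A' B' σ (f P)

end

/-- The height of `j = a / b`, in lowest terms: the maximum of `|a|` and `b`. -/
def height (j : ℚ) : ℕ := max j.num.natAbs j.den

/-- Some elliptic curves with invariants `j` and `j'` over some number field `K` of degree at most `D` and
prime to `6` are `p`-congruent over `K` for some prime `p ≥ P` larger than `[K : ℚ]`. -/
def CongruentInvariants (D P : ℕ) (j j' : ℚ) : Prop :=
  ∃ (K : Type) (_ : Field K) (_ : NumberField K) (p : ℕ) (A B A' B' : K),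
    Module.finrank ℚ K ≤ D ∧ (Module.finrank ℚ K).Coprime 6 ∧
    p.Prime ∧ P ≤ p ∧ Module.finrank ℚ K < p ∧
    4 * A ^ 3 + 27 * B ^ 2 ≠ 0 ∧ 4 * A' ^ 3 + 27 * B' ^ 2 ≠ 0 ∧
    invariant A B = (j : K) ∧ invariant A' B' = (j' : K) ∧ Congruent p A B A' B'

/-- The pairs of an integer `n ≠ 0, 1728`, `|n| ≤ X`, and a rational number `j' ≠ n` of height at most `Y`
and denominator at most `W` which are the invariants of congruent curves. -/
def Pairs (D P X Y W : ℕ) : Set (ℤ × ℚ) :=
  {x | x.1 ≠ 0 ∧ x.1 ≠ 1728 ∧ x.1.natAbs ≤ X ∧ height x.2 ≤ Y ∧ x.2.den ≤ W ∧ x.2 ≠ (x.1 : ℚ) ∧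
    CongruentInvariants D P (x.1 : ℚ) x.2}

/-- **Congruent pairs with an integral invariant.** For `P ≥ 13` and `ε > 0` there are at most
`C (X Y) ^ (3 / 8 + ε) W ^ (1 / P)` pairs `(n, j')`, `1 ≤ X ≤ Y`, `W ≥ 1`. -/
theorem result (D P : ℕ) (ε : ℝ) (hP : 13 ≤ P) (hε : 0 < ε) :
    ∃ C : ℝ, ∀ X Y W : ℕ, 1 ≤ X → X ≤ Y → 1 ≤ W →
      (Pairs D P X Y W).Finite ∧ ((Pairs D P X Y W).ncard : ℝ) ≤
        C * ((X : ℝ) * Y) ^ (3 / 8 + ε) * (W : ℝ) ^ (1 / (P : ℝ)) := by
  have hinv : ∀ {K : Type} [Field K] (A B : K), Pool.Agent.Y673.Loc.jv A B = invariant A B := by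
    intro K _ A B
    unfold Pool.Agent.Y673.Loc.jv invariant
    ring
  obtain ⟨C, hC⟩ := Pool.Agent.J4.H70.FM5.card_pairsI D P hP hε
  refine ⟨C, fun X Y W hX hXY hW => ?_⟩
  obtain ⟨hfin, hle⟩ := hC X Y W hX hXY hW
  have hsub : Pairs D P X Y W ⊆ Pool.Agent.J4.H70.FM5.PI D P X Y W := by
    rintro ⟨n, j'⟩ ⟨h1, h2, h3, h4, h5, h6, K, _, _, p, A, B, A', B', hD, hc6, hp, hPp, hn, hd, hd',
      hjj, hjj', f, g1, g2, g3⟩
    exact ⟨h1, h2, h3, h4, h5, fun h => h6 h.symm, K, _, _, p, A, B, A', B', hD, hc6, hPp,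
      ⟨hd, hd', by rw [hinv, hjj], by rw [hinv, hjj'], hp, hP.trans hPp, hn, ⟨f, g1, g2, g3⟩⟩⟩
  exact ⟨hfin.subset hsub, le_trans (Nat.cast_le.2 (Set.ncard_le_ncard hsub hfin)) hle⟩

end Pool.Agent.Results.MP_f5d5f4_nt.IntegralPairs
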