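import Pool.Agent.J4.H93.EQ.EQ4

/-!
# Pairs of families of elliptic curves in several parameters with restricted digits: no congruences

Let `E_v : y² = x³ + A(v)x + B(v)` and `F_v : y² = x³ + A'(v)x + B'(v)` be two polynomial families of elliptic curves over `ℚ`
over the same base, with the parameters `v = (t, s_1, ..., s_n)`, and let `P(t)` be an irreducible polynomial which divides the
discriminant of `E` exactly once and does not divide the discriminant of `F`.  (For `n = 0` these are two families with one
common parameter `t`.  If `A`, `B` depend on `t` only and `A'`, `B'` on `s` only, then `E` is a one-parameter family with an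
`I₁` fibre and `F` ANY polynomial family of elliptic curves with an independent set of parameters, for instance all curves
`y² = x³ + s_1 x + s_2`.)  Let the parameters run over integers with restricted digits: the `j`-th digit of the `i`-th parameter
in the base `b_i` lies in a given set `D_(i, j)` with at least two elements.  These sets of integers have no positive density, and
may contain no primes, no squares, and so on.  Then for all but a small proportion of the `v` the modules `E_v[m]` and `F_v[m]`
are not isomorphic over `ℚ` for any `m ≥ 2`, and they are not isomorphic over any number field `L`, if `m` has a prime factor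
`l ≥ 3`, `l > [L : ℚ]`.

Proof.  If two primes `q ≥ 5` divide `4A(v)³ + 27B(v)²` exactly once and do not divide `4A'(v)³ + 27B'(v)²`, then there are no
congruences (inertia acts by a transvection on `E_v[l]` and trivially on `F_v[l]`; theorem of the starting files).  The number of
such primes `q ≤ z` is for residues `v` modulo `∏ q²` a sum of independent random variables with the mean value at least
`(1/4) log log z - C` (Mertens for the roots of `P`, and Schwartz-Zippel), so that fewer than two of them have the
probability `O((log z)^(-1/16))`; and the integers with restricted digits are uniformly distributed modulo `∏ q²` for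
`z` up to a power of the number of the digits, since all the `q` are larger than the bases (`Pool.Agent.J4.H93.EQ`).
-/

set_option autoImplicit false

namespace Pool.Agent.Results.MP_f5d5f4_nt.RestrictedDigits

open Finset Polynomial
open scoped Classical

/-- The curve `y² = x³ + Ax + B` over `ℚ`. -/
def curve (A B : ℤ) : WeierstrassCurve ℚ := ⟨0, 0, 0, A, B⟩

/-- The group of its points over the algebraic closure of `ℚ`. -/
abbrev Points (A B : ℤ) : Type := ((curve A B).baseChange (AlgebraicClosure ℚ)).toAffine.Point

/-- The action of an automorphism `σ` of the algebraic closure on the points. -/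
noncomputable def galois (A B : ℤ) (σ : AlgebraicClosure ℚ ≃ₐ[ℚ] AlgebraicClosure ℚ) :
    Points A B →+ Points A B :=
  WeierstrassCurve.Affine.Point.map
    (σ : AlgebraicClosure ℚ →ₐ[ℚ] AlgebraicClosure ℚ)

/-- The `n`-torsion of `y² = x³ + Ax + B` and that of `y² = x³ + A'x + B'` are isomorphic as modules over the Galois group of the
field `L`: some map between the groups of points restricts to a bijective additive map of the `n`-torsion which commutes with all
automorphisms of the algebraic closure which fix `L`. -/
def CongruentOver (L : IntermediateField ℚ (AlgebraicClosure ℚ)) (n : ℕ) (A B A' B' : ℤ) : Prop :=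
  ∃ f : Points A B → Points A' B', (∀ P Q, n • P = 0 → n • Q = 0 → f (P + Q) = f P + f Q) ∧
    Set.BijOn f {P | n • P = 0} {Q | n • Q = 0} ∧
    ∀ σ ∈ L.fixingSubgroup, ∀ P : Points A B, n • P = 0 → f (galois A B σ P) = galois A' B' σ (f P)

/-- `y² = x³ + Ax + B` and `y² = x³ + A'x + B'` are elliptic curves, their `n`-torsion is not isomorphic over `ℚ` for any
`n ≥ 2`, and it is not isomorphic over any number field `L`, if `n` has a prime factor `l ≥ 3`, `l > [L : ℚ]`. -/
def NoCongruence (A B A' B' : ℤ) : Prop :=
  4 * A ^ 3 + 27 * B ^ 2 ≠ 0 ∧ 4 * A' ^ 3 + 27 * B' ^ 2 ≠ 0 ∧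
    (∀ n : ℕ, 2 ≤ n → ¬ CongruentOver ⊥ n A B A' B') ∧
    ∀ L : IntermediateField ℚ (AlgebraicClosure ℚ), FiniteDimensional ℚ L → ∀ l : ℕ, l.Prime → 3 ≤ l → Module.finrank ℚ L < l →
      ∀ n : ℕ, l ∣ n → ¬ CongruentOver L n A B A' B'

/-- The integers below `b ^ k` whose `j`-th digit in base `b` lies in `D j`, for all `j < k`. -/
def S (b : ℕ) (D : ℕ → Finset ℕ) (k : ℕ) : Finset ℕ :=
  (range (b ^ k)).filter (fun n : ℕ => ∀ j < k, n / b ^ j % b ∈ D j)

/-- The value of the polynomial `f` in `s_1, ..., s_n` with coefficients in `ℤ[t]` at `t = v 0`, `s_i = v i`, `i = 1, ..., n`. -/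
noncomputable def value {n : ℕ} (f : MvPolynomial (Fin n) ℤ[X]) (v : Fin (n + 1) → ℕ) : ℤ :=
  MvPolynomial.eval₂ (Polynomial.evalRingHom (v 0 : ℤ)) (fun i : Fin n => (v i.succ : ℤ)) f

/-- Two primes suffice. -/
lemma no_congruence {A B A' B' : ℤ} (h : Pool.Agent.TH894.NJ.Two2 A B A' B') : NoCongruence A B A' B' := by
  obtain ⟨q₁, q₂, hlt, x1, x2, d1, d2⟩ := h
  have h0 : Pool.Agent.W275.FM.dsc A B ≠ 0 := by
    intro h0
    apply x1.2.2.2
    rw [h0]
    exact dvd_zero _
  have h0' : Pool.Agent.W275.FM.dsc A' B' ≠ 0 := by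
    intro h0
    apply d1
    rw [h0]
    exact dvd_zero _
  refine ⟨h0, h0', ?_, ?_⟩
  · rintro n hn ⟨f, h1, h2, h3⟩
    have hT : Pool.Agent.W275.FM.TorIso n A B A' B' :=
      ⟨f, h1, h2, fun σ P hP => h3 σ (by rw [IntermediateField.fixingSubgroup_bot]; exact Subgroup.mem_top _) P hP⟩
    have hbad := Pool.Agent.TH4.FZ.key_bad x1 hn h0' hT
    exact d1 (hbad.2.2 _ _ (Pool.Agent.TH4.FZ.Mdl.self A' B'))
  · intro L hL l hl hl3 hlL n hln hC
    by_cases hq : q₁ = l
    · exact Pool.Agent.TH894.NJ.no_iso A B A' B' q₂ l n x2 d2 hl hl3 (by omega) hln L.fixingSubgroup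
        (fun σ => Pool.Agent.TH894.NJ.pigeon L l hlL σ) hC
    · exact Pool.Agent.TH894.NJ.no_iso A B A' B' q₁ l n x1 d1 hl hl3 hq hln L.fixingSubgroup
        (fun σ => Pool.Agent.TH894.NJ.pigeon L l hlL σ) hC

/-- **Pairs of families in several parameters with restricted digits.**  Let `A, B, A', B'` be polynomials in the parameters `t`
and `s_1, ..., s_n` with integer coefficients and `P` an irreducible polynomial of positive degree in `t` which divides
`4A³ + 27B²` exactly once and does not divide `4A'³ + 27B'²`, and let `b_0, ..., b_n ≥ 2`.  There is `C` such that for all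
`K ≥ 3`, all `k_0, ..., k_n ≥ K` and all sets `D_(i, j)` of at least two digits in base `b_i`: if `v = (t, s_1, ..., s_n)` runs
over the vectors of integers with restricted digits, `v_i < b_i ^ (k_i)` with the `j`-th digit in base `b_i` in the set
`D_(i, j)`, then for all but the proportion `C (log K) ^ (-1/16)` of them `E_v : y² = x³ + A(v)x + B(v)` and
`F_v : y² = x³ + A'(v)x + B'(v)` are elliptic curves, `E_v[m]` and `F_v[m]` are not isomorphic as Galois modules over `ℚ` for any
`m ≥ 2`, and they are not isomorphic over any number field `L`, if `m` has a prime factor `l ≥ 3`, `l > [L : ℚ]`. -/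
theorem result (n : ℕ) (A B A' B' : MvPolynomial (Fin n) ℤ[X]) (P : ℤ[X]) (hP : Irreducible P) (hd : 0 < P.natDegree)
    (h1 : MvPolynomial.C P ∣ 4 * A ^ 3 + 27 * B ^ 2) (h2 : ¬ MvPolynomial.C P ^ 2 ∣ 4 * A ^ 3 + 27 * B ^ 2)
    (h3 : ¬ MvPolynomial.C P ∣ 4 * A' ^ 3 + 27 * B' ^ 2) (b : Fin (n + 1) → ℕ) (hb : ∀ i, 2 ≤ b i) :
    ∃ C : ℝ, 0 < C ∧ ∀ K : ℕ, 3 ≤ K → ∀ k : Fin (n + 1) → ℕ, (∀ i, K ≤ k i) → ∀ D : Fin (n + 1) → ℕ → Finset ℕ,
      (∀ i, ∀ j < k i, D i j ⊆ range (b i) ∧ 2 ≤ (D i j).card) →
      (((Fintype.piFinset (fun i => S (b i) (D i) (k i))).filter (fun v =>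
        ¬ NoCongruence (value A v) (value B v) (value A' v) (value B' v))).card : ℝ) ≤
        C * (Real.log K) ^ (-(1 / 16) : ℝ) * ∏ i, ((S (b i) (D i) (k i)).card : ℝ) := by
  obtain ⟨C, hC, h⟩ := Pool.Agent.J4.H93.EQ.pairs_digits A B A' B' P hP hd h1 h2 h3 b hb
  refine ⟨C, hC, fun K hK k hk D hD => ?_⟩
  refine le_trans ?_ (h K hK k hk D hD)
  apply Nat.cast_le.2
  apply card_le_card
  intro v hv
  rw [mem_filter] at hv ⊢
  exact ⟨hv.1, fun hR => hv.2 (no_congruence hR)⟩

end Pool.Agent.Results.MP_f5d5f4_nt.RestrictedDigits
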