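import Pool.Agent.J4.H70.FM5.Gap2

/-!
# MP_f5d5f4_nt: a wider height gap for congruent elliptic curves

For `j = a / b` in lowest terms let `H(j) = max (|a|, b)`; about `(12 / π ^ 2) X ^ 2` rational numbers
have height at most `X`.

**Theorem.** Let `D ≥ 1`, `P ≥ 13` and `κ < 3 - 4 / (P + 2)`; for instance `P = 13` and `κ = 2.73`, or
`P = 19` (all the primes for which no pair of nonisogenous congruent curves is known) and `κ = 2.8`; the
bound for `κ` tends to `3`. There are `δ > 0` and `C` such that all but at most `C X ^ (2 - δ)` of the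
rational numbers `j` of height at most `X` have the following property. Let `K` be a number field of
degree at most `D` and prime to `6` (for instance `ℚ`), `E` an elliptic curve over `K` with invariant `j`,
and `E'` an elliptic curve over `K` with a rational invariant of height at most `X ^ κ`. If `E` and `E'`
are `p`-congruent over `K` for some prime `p ≥ P` larger than `[K : ℚ]`, then they are isomorphic over `K`
(so twists are not excepted).

The file `HeightGap` has the same conclusion for `κ < 1 + (4 / 3) / (5 / 6 + 1 / P)` (`2.46` for `P = 13`,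
`2.5` for `P = 19`, and at most `2.6`).

Proof. Let `j = a / b`, `j' = a' / b'` be different, of heights at most `X` and `X ^ κ`, and congruent,
`c = a - 1728 b`, `c' = a' - 1728 b'`. By the local analysis of the libraries `JD` and `HG`, `a' = A a₂`,
`b' = B b₂`, `c' = C c₂`, where `A` is the product of the primes `q ≥ 5` at which `a` has an order prime
to `3`, `C` the same for `c` and odd orders, `B` for `b` and orders at most `12`; and `c₂ = s w²`,
`b₂ = s' z ^ p`, where `s`, `s'` are composed of the primes dividing `6 b` (or an exceptional `p`). Write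
`a = A a₁`, `b = B b₁`, `c = C c₁`. Elimination of `B` from `A a₁ = C c₁ + 1728 B b₁` and
`A a₂ = C c₂ + 1728 B b₂` gives `A (a₁ b₂ - a₂ b₁) = C (c₁ b₂ - c₂ b₁)`, and `A`, `C` are coprime, so **`A`
divides `c₁ b₂ - b₁ c₂ ≠ 0`**. (`HeightGap` used the analogous divisibility by `B`, for which the
cofactor `a₂` has to be chosen, and `a₂ = s α u³` with a divisor `α` of the unknown `A` takes
`X ^ (2 / 3 + (κ - 1) / 3)` values.) For all but `X ^ (2 - δ)` of the `j` the cofactors `a₁`, `b₁`, `c₁`
are at most `X ^ ε`. Choose these and `B` (`X ^ (1 + ε)` choices), then `b₂` (`X ^ ((κ - 1) / P + ε)`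
choices) and `c₂` (`X ^ ((κ - 1) / 2 + ε)` choices). They determine `A` up to `X ^ ε` choices, and then `j`
and `j'`. The total is smaller than `X ^ 2`.
-/

set_option autoImplicit false

open WeierstrassCurve

namespace Pool.Agent.Results.MP_f5d5f4_nt.WiderHeightGap

section
variable {K : Type} [Field K]

/-- The curve `y² = x³ + Ax + B` over the field `K`. -/
def curve (A B : K) : WeierstrassCurve K := ⟨0, 0, 0, A, B⟩

/-- Its `j`-invariant. -/
noncomputable def invariant (A B : K) : K := 1728 * (4 * A ^ 3) / (4 * A ^ 3 + 27 * B ^ 2)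

open scoped Classical in
/-- The group of its points over the algebraic closure of `K`. -/
abbrev Points (A B : K) : Type := ((curve A B).baseChange (AlgebraicClosure K)).toAffine.Point

open scoped Classical in
/-- The action of an automorphism `σ` of the algebraic closure on the points. -/
noncomputable def galois (A B : K) (σ : AlgebraicClosure K ≃ₐ[K] AlgebraicClosure K) :
    Points A B →+ Points A B :=
  WeierstrassCurve.Affine.Point.map (σ : AlgebraicClosure K →ₐ[K] AlgebraicClosure K)

open scoped Classical in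
/-- The curves `y² = x³ + Ax + B` and `y² = x³ + A'x + B'` are `p`-congruent over `K`: some map between
the groups of points restricts to a bijective additive map between the groups of points killed by `p`
which commutes with the Galois group. -/
def Congruent (p : ℕ) (A B A' B' : K) : Prop :=
  ∃ f : Points A B → Points A' B', (∀ P Q, p • P = 0 → p • Q = 0 → f (P + Q) = f P + f Q) ∧
    Set.BijOn f {P | p • P = 0} {Q | p • Q = 0} ∧
    ∀ (σ : AlgebraicClosure K ≃ₐ[K] AlgebraicClosure K) (P : Points A B), p • P = 0 →
      f (galois A B σ P) = galois A' B' σ (f P)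

/-- The curves are isomorphic over `K`. -/
def Isomorphic (A B A' B' : K) : Prop := ∃ c : K, c ≠ 0 ∧ A' = c ^ 4 * A ∧ B' = c ^ 6 * B

end

/-- The height of `j = a / b`, in lowest terms: the maximum of `|a|` and `b`. -/
def height (j : ℚ) : ℕ := max j.num.natAbs j.den

/-- The curves with invariant `j`, over number fields `K` of degree at most `D` and prime to `6`, are not
congruent modulo a prime `p ≥ P` larger than `[K : ℚ]` to any curve with a rational invariant of height
at most `y`, except for the curves isomorphic to them. -/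
def NoCongruence (D P : ℕ) (y : ℝ) (j : ℚ) : Prop :=
  ∀ (K : Type) [Field K] [NumberField K] (p : ℕ) (A B A' B' : K) (j' : ℚ),
    Module.finrank ℚ K ≤ D → (Module.finrank ℚ K).Coprime 6 →
    p.Prime → P ≤ p → Module.finrank ℚ K < p →
    4 * A ^ 3 + 27 * B ^ 2 ≠ 0 → 4 * A' ^ 3 + 27 * B' ^ 2 ≠ 0 →
    invariant A B = (j : K) → invariant A' B' = (j' : K) → (height j' : ℝ) ≤ y →
    Congruent p A B A' B' → Isomorphic A B A' B'

/-- **The wider height gap.** If `P ≥ 13` and `κ < 3 - 4 / (P + 2)`, then for all but `C X ^ (2 - δ)`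
rational numbers `j` of height at most `X` the elliptic curves with invariant `j` have no
`p`-congruence, `p ≥ P`, with curves with rational invariants of height at most `X ^ κ`, except for
isomorphisms. -/
theorem result (D P : ℕ) (κ : ℝ) (hP : 13 ≤ P) (hκ : κ < 3 - 4 / ((P : ℝ) + 2)) :
    ∃ δ : ℝ, 0 < δ ∧ ∃ C : ℝ, ∀ X : ℕ, 1 ≤ X →
      (({j : ℚ | height j ≤ X ∧ ¬ NoCongruence D P ((X : ℝ) ^ κ) j}.ncard : ℕ) : ℝ) ≤
        C * (X : ℝ) ^ (2 - δ) := by
  have hinv : ∀ {K : Type} [Field K] (A B : K), Pool.Agent.Y673.Loc.jv A B = invariant A B := by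
    intro K _ A B
    unfold Pool.Agent.Y673.Loc.jv invariant
    ring
  have hP0 : (0 : ℝ) < P := by exact_mod_cast (by omega : 0 < P)
  have hκ1 : (max κ 1 - 1) * (1 / 2 + 1 / (P : ℝ)) < 1 := by
    rcases le_total κ 1 with h | h
    · rw [max_eq_right h]
      norm_num
    · rw [max_eq_left h]
      have h1 : κ - 1 < 2 * P / (P + 2) := by
        have : 3 - 4 / ((P : ℝ) + 2) = 1 + 2 * P / (P + 2) := by
          field_simp
          ring
        linarith
      have h2 : (1 / 2 + 1 / (P : ℝ)) * (2 * P / (P + 2)) = 1 := by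
        field_simp
      calc (κ - 1) * (1 / 2 + 1 / (P : ℝ)) < (2 * P / (P + 2)) * (1 / 2 + 1 / (P : ℝ)) :=
            mul_lt_mul_of_pos_right h1 (by positivity)
        _ = 1 := by rw [mul_comm]; exact h2
  obtain ⟨δ, hδ, C, h⟩ := Pool.Agent.J4.H70.FM5.gap2 D P hP (le_max_right κ 1) hκ1
  refine ⟨δ, hδ, C, fun X hX => le_trans ?_ (h X hX)⟩
  have hX1 : (1 : ℝ) ≤ X := by exact_mod_cast hX
  refine Nat.cast_le.2 (Set.ncard_le_ncard ?_
    ((Pool.Agent.K4H56.JD.Ht_finite X).subset fun j hj => hj.1))
  rintro j ⟨hj, hF⟩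
  refine ⟨hj, fun hFM => hF ?_⟩
  intro K _ _ p A B A' B' j' hD h6 hp hPp hn hd hd' hjj hjj' hH ⟨f, h1, h2, h3⟩
  refine hFM K _ _ p A B A' B' j' hD h6 hPp
    ⟨hd, hd', by rw [hinv, hjj], by rw [hinv, hjj'], hp, hP.trans hPp, hn, ⟨f, h1, h2, h3⟩⟩
    (le_trans hH (Real.rpow_le_rpow_of_exponent_le hX1 (le_max_left κ 1)))

end Pool.Agent.Results.MP_f5d5f4_nt.WiderHeightGap
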